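import Pool.Agent.Helper58.QD.StS
import Pool.Agent.Helper12.DSH.M_LMJ

/-!
# Project QD (MP_087a81_gt), module CAC: Caccioppoli inequality for minimal primitives
-/

set_option autoImplicit false

open Set Filter Topology MeasureTheory
open Helper62.LH Helper62.DSH Helper58.QD
open Pool.Agent.Helper12.DSH (lmj_pick lmj_int5 lmj_int2 lmj_q2_cont lmj_q2_zero lmj_grad lmj_ptw
  lmj_l2)
open scoped ContDiff ENNReal

noncomputable section

namespace Pool.Agent.Helper67.QD

/-- the profile of the cut-off function -/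
private theorem cutoff : ∃ f : ℝ → ℝ, ContDiff ℝ ∞ f ∧ (∀ s, 0 ≤ f s) ∧ (∀ s, f s ≤ 1) ∧
    (∀ s, 1 / 2 ≤ s → s ≤ 32 → f s = 1) ∧ (∀ s, s ≤ 3 / 8 → f s = 0) ∧
    (∀ s, 48 ≤ s → f s = 0) ∧ ∃ C₀ : ℝ, 0 ≤ C₀ ∧ ∀ s, |deriv f s| ≤ C₀ := by
  obtain ⟨f, hf⟩ : ∃ f : ℝ → ℝ, f = fun s => Real.smoothTransition (8 * s - 3) *
    Real.smoothTransition (3 - s / 16) := ⟨_, rfl⟩
  have h1 : ContDiff ℝ ∞ f := by
    rw [hf]
    refine ContDiff.mul ?_ ?_
    · exact Real.smoothTransition.contDiff.comp ((contDiff_const.mul contDiff_id).sub contDiff_const)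
    · exact Real.smoothTransition.contDiff.comp (contDiff_const.sub (contDiff_id.div_const _))
  have h5 : ∀ s, s ≤ 3 / 8 → f s = 0 := by
    intro s hs
    rw [hf]
    simp only
    rw [Real.smoothTransition.zero_of_nonpos (by linarith), zero_mul]
  have h6 : ∀ s, 48 ≤ s → f s = 0 := by
    intro s hs
    rw [hf]
    simp only
    rw [Real.smoothTransition.zero_of_nonpos (x := 3 - s / 16) (by linarith), mul_zero]
  have hcs : HasCompactSupport f := by
    refine HasCompactSupport.intro (K := Icc (3 / 8) 48) isCompact_Icc fun s hs => ?_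
    rw [mem_Icc, not_and_or, not_le, not_le] at hs
    rcases hs with hs | hs
    · exact h5 s hs.le
    · exact h6 s hs.le
  obtain ⟨C₀, hC₀⟩ := (h1.continuous_deriv (by simp)).bounded_above_of_compact_support hcs.deriv
  refine ⟨f, h1, ?_, ?_, ?_, h5, h6, max C₀ 0, le_max_right _ _, fun s => ?_⟩
  · intro s
    rw [hf]
    exact mul_nonneg (Real.smoothTransition.nonneg _) (Real.smoothTransition.nonneg _)
  · intro s
    rw [hf]
    exact mul_le_one₀ (Real.smoothTransition.le_one _) (Real.smoothTransition.nonneg _)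
      (Real.smoothTransition.le_one _)
  · intro s hs hs'
    rw [hf]
    simp only
    rw [Real.smoothTransition.one_of_one_le (by linarith),
      Real.smoothTransition.one_of_one_le (by linarith), mul_one]
  · have := hC₀ s
    rw [Real.norm_eq_abs] at this
    exact this.trans (le_max_left _ _)

private theorem int_l2 {n j : ℕ} {ζ : E n → Tn n j} (h : L2t ζ) {v : E n → ℝ}
    (hv : Continuous v) {K : Set (E n)} (hK : IsCompact K) :
    IntegrableOn (fun x => q2 (ζ x) * v x) K := by
  refine IntegrableOn.mul_continuousOn ?_ hv.continuousOn hK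
  have h1 : IntegrableOn (fun x => ∑ I, ζ x I ^ 2) K :=
    integrable_finsetSum _ fun I _ => (h I).2 K hK
  have h2 := h1.div_const (j.factorial : ℝ)
  refine h2.congr (Filter.Eventually.of_forall fun x => ?_)
  simp only [q2, ipt, sq]

private theorem q2_symm {n j : ℕ} (s t : Tn n j) : q2 (s - t) = q2 (t - s) := by
  unfold q2 ipt
  congr 1
  refine Finset.sum_congr rfl fun I _ => ?_
  simp only [Pi.sub_apply]
  ring

/-- continuity of the curvature term -/
private theorem wz_cont (hChr : StChr) {n m : ℕ} {g : E n → Bl n} {Γ : E n → Bm n}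
    {F : Fin n → E n → E n} (hg : IsMet g) (hΓ : IsChr g Γ) (hF : ∀ a, ContDiff ℝ ∞ (F a))
    {w : E n → Tn n (m + 1)} (hw : Continuous w) :
    Continuous (fun x => Wz (Rc g Γ F x) (w x)) := by
  have hgc := hg.smooth.continuous
  have hΓs := (hChr n g Γ hg hΓ).1
  have hΓc := hΓs.continuous
  have hΓd := hΓs.continuous_fderiv (by simp)
  have hFc : ∀ a, Continuous (F a) := fun a => (hF a).continuous
  have h1 : ∀ a b c l, Continuous (fun x => Rc g Γ F x a b c l) := by
    intro a b c l
    have ha := hFc a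
    have hb := hFc b
    have hc := hFc c
    have hl := hFc l
    have h2 : Continuous (fun x => Rm Γ x (F a x) (F b x) (F c x)) := by
      unfold Rm
      refine ((Continuous.add (Continuous.sub ?_ ?_) ?_).sub ?_)
      · exact ((hΓd.clm_apply ha).clm_apply hb).clm_apply hc
      · exact ((hΓd.clm_apply hb).clm_apply ha).clm_apply hc
      · exact (hΓc.clm_apply ha).clm_apply ((hΓc.clm_apply hb).clm_apply hc)
      · exact (hΓc.clm_apply hb).clm_apply ((hΓc.clm_apply ha).clm_apply hc)
    exact (hgc.clm_apply h2).clm_apply hl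
  have hw' : ∀ I, Continuous (fun x => w x I) := fun I => (continuous_apply I).comp hw
  unfold Wz ipt rho ct
  refine continuous_finsetSum _ fun a _ => continuous_finsetSum _ fun b _ =>
    Continuous.div_const (continuous_finsetSum _ fun I _ => (hw' _).mul ?_) _
  exact continuous_finsetSum _ fun k _ => continuous_finsetSum _ fun l _ => (h1 _ _ _ _).mul (hw' _)

/-- CAC. -/
theorem hCac (hChr : StChr) (hDlv : StDlv) (hNrm : TNrm) (hDer : TDer) (hLbz : TLbz)
    (hBol : SBol) (hGrw : SGrw) (hMin : SMin) : SCac := by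
  intro n m g Γ F G hg hc hF p b β κ₀ r0 hBus hLvl A hA hWD
  obtain ⟨-, hAc, R0', hR0', hgr⟩ := hGrw n g Γ hg p b β κ₀ r0 hBus hLvl
  obtain ⟨f, hfs, hf0, hf1, hfone, hfz, hfz', C₀, hC₀, hfd⟩ := cutoff
  obtain ⟨hv1, hv2, -⟩ := hDlv n g Γ hg hc
  have hvc : Continuous (vol g) := hv1.continuous
  have hvp : ∀ x, 0 ≤ vol g x := fun x => (hv2 x).le
  have n1 : ∀ t : Tn n (m + 1), 0 ≤ q2 t := fun t => ((hNrm n (m + 1)).1 t).1
  have n2 : ∀ t : Tn n (m + 2), 0 ≤ q2 t := fun t => ((hNrm n (m + 2)).1 t).1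
  have n0 : ∀ t : Tn n m, 0 ≤ q2 t := fun t => ((hNrm n m).1 t).1
  obtain ⟨c₁, hc₁⟩ : ∃ c₁ : ℝ, c₁ = 64 * A + (4 * m + 6) * (2 * C₀) ^ 2 := ⟨_, rfl⟩
  have hc₁0 : 0 ≤ c₁ := by
    rw [hc₁]
    positivity
  refine ⟨2 * c₁ + 4, 4 * R0', by positivity, by linarith, ?_⟩
  intro R hR P hP u0 hu0 κ hκ
  have hR4 : 4 ≤ R := by linarith
  have hR0 : 0 < R := by linarith
  obtain ⟨K, hKd⟩ : ∃ K, K = An β (R / 4) (64 * R) := ⟨_, rfl⟩
  have hK : IsCompact K := by
    rw [hKd]
    exact hAc _ _
  obtain ⟨K2, hK2d⟩ : ∃ K2, K2 = An β (R / 2) (32 * R) := ⟨_, rfl⟩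
  have hK2 : IsCompact K2 := by
    rw [hK2d]
    exact hAc _ _
  have hK2K : K2 ⊆ K := by
    rw [hKd, hK2d]
    rintro x ⟨h1, h2⟩
    exact ⟨by linarith, by linarith⟩
  rw [← hKd, ← hK2d]
  obtain ⟨I0, hI0⟩ : ∃ I0, I0 = ∫ x in K, q2 (u0 x) * vol g x := ⟨_, rfl⟩
  rw [← hI0]
  have hI00 : 0 ≤ I0 := by
    rw [hI0]
    exact integral_nonneg fun x => mul_nonneg (n1 _) (hvp x)
  obtain ⟨PP, hPP⟩ : ∃ PP, PP = ∫ x, q2 (P x) * vol g x := ⟨_, rfl⟩
  rw [← hPP]
  have hPP0 : 0 ≤ PP := by
    rw [hPP]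
    exact integral_nonneg fun x => mul_nonneg (n2 _) (hvp x)
  obtain ⟨r, hr0, hr1, hr2⟩ := lmj_pick I0 (κ / 2) hI00 (by positivity)
  obtain ⟨κ₁, hk0, hk1, hk2⟩ := lmj_pick (9 + 1 / r + 4 * c₁) (κ / 2) (by positivity)
    (by positivity)
  obtain ⟨ψ, η, hψs, hψ0, hψZ, hηa, hηL, hAp, happ, hηI⟩ := hMin n m g Γ F G hg hc hF p b β κ₀
    r0 hBus hLvl P hP u0 hu0 (R / 4) (64 * R) κ₁ hk0
  rw [← hKd, ← hI0] at hηI
  rw [← hKd] at hψZ
  obtain ⟨u, hu, huI⟩ := happ K hK κ₁ hk0
  obtain ⟨v, hvs, hva, p1, p2, p3⟩ := hAp K hK κ₁ hk0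
  have J1 : IntegrableOn (fun x => q2 (P x) * vol g x) K := hP.int.integrableOn
  have J3 : IntegrableOn (fun x => q2 (η x) * vol g x) K := int_l2 hηL hvc hK
  have J4 : IntegrableOn (fun x => q2 (v x - η x) * vol g x) K :=
    lmj_l2 η v (vol g) hηL hvs.continuous hvc K hK
  have J6 : IntegrableOn (fun x => q2 (u x - η x) * vol g x) K :=
    lmj_l2 η u (vol g) hηL hu.1.continuous hvc K hK
  have hr3 : 0 ≤ 1 / r := by positivity
  have b1 : κ₁ * (1 / r) ≤ κ / 2 := by
    have : κ₁ * (1 / r) ≤ κ₁ * (9 + 1 / r + 4 * c₁) :=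
      mul_le_mul_of_nonneg_left (by linarith) hk0.le
    linarith
  have b2 : κ₁ * (9 + 1 / r) ≤ κ / 2 := by
    have : κ₁ * (9 + 1 / r) ≤ κ₁ * (9 + 1 / r + 4 * c₁) :=
      mul_le_mul_of_nonneg_left (by linarith) hk0.le
    linarith
  have b3 : κ₁ * (6 + 4 * c₁) ≤ κ / 2 := by
    have : κ₁ * (6 + 4 * c₁) ≤ κ₁ * (9 + 1 / r + 4 * c₁) :=
      mul_le_mul_of_nonneg_left (by linarith) hk0.le
    linarith
  refine ⟨u, v, hu, hvs, hva, ?_, ?_, ?_⟩
  · -- the integral of `u`
    obtain ⟨iH, eH⟩ := lmj_int2 (μ := volume.restrict K) J3 J6 (1 + r) (1 + 1 / r)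
    have iu : IntegrableOn (fun x => q2 (u x) * vol g x) K :=
      ((lmj_q2_cont.comp hu.1.continuous).mul hvc).continuousOn.integrableOn_compact hK
    have w1 := setIntegral_mono_on iu iH hK.measurableSet (fun x hx => ?_)
    · rw [eH] at w1
      have w2 := mul_le_mul_of_nonneg_left hηI (show (0 : ℝ) ≤ 1 + r by positivity)
      have w3 := mul_le_mul_of_nonneg_left huI (show (0 : ℝ) ≤ 1 + 1 / r by positivity)
      have w4 : κ₁ * r ≤ κ₁ := mul_le_of_le_one_right hk0.le hr1
      nlinarith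
    · have h := (hNrm n (m + 1)).2.2.2.1 (η x) (u x - η x) r hr0
      rw [add_sub_cancel] at h
      calc q2 (u x) * vol g x ≤ ((1 + r) * q2 (η x) + (1 + 1 / r) * q2 (u x - η x)) * vol g x :=
            mul_le_mul_of_nonneg_right h (hvp x)
        _ = _ := by ring
  · -- the difference of `u` and `v`
    obtain ⟨iH, eH⟩ := lmj_int2 (μ := volume.restrict K) J6 J4 2 2
    have iu : IntegrableOn (fun x => q2 (u x - v x) * vol g x) K :=
      ((lmj_q2_cont.comp (hu.1.continuous.sub hvs.continuous)).mul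
        hvc).continuousOn.integrableOn_compact hK
    have w0 : ∫ x in K2, q2 (u x - v x) * vol g x ≤ ∫ x in K, q2 (u x - v x) * vol g x :=
      setIntegral_mono_set iu (ae_of_all _ fun x => mul_nonneg (n1 _) (hvp x))
        (ae_of_all _ fun x hx => hK2K hx)
    have w1 := setIntegral_mono_on iu iH hK.measurableSet (fun x hx => ?_)
    · rw [eH] at w1
      have w4 : 0 ≤ κ₁ * (1 / r) := by positivity
      nlinarith
    · have h := (hNrm n (m + 1)).2.2.2.1 (u x - η x) (η x - v x) 1 one_pos
      rw [sub_add_sub_cancel, q2_symm (η x) (v x)] at h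
      calc q2 (u x - v x) * vol g x
          ≤ ((1 + 1) * q2 (u x - η x) + (1 + 1 / 1) * q2 (v x - η x)) * vol g x :=
            mul_le_mul_of_nonneg_right h (hvp x)
        _ = _ := by ring
  · -- the energy of `v`
    have hβs := hLvl.smooth
    obtain ⟨χ, hχd⟩ : ∃ χ : E n → ℝ, χ = fun x => f (β x / R) := ⟨_, rfl⟩
    have hχs : ContDiff ℝ ∞ χ := by
      rw [hχd]
      exact hfs.comp (hβs.div_const R)
    have hχ0 : ∀ x, 0 ≤ χ x := fun x => by rw [hχd]; exact hf0 _
    have hχ1 : ∀ x, χ x ≤ 1 := fun x => by rw [hχd]; exact hf1 _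
    have hχone : ∀ x ∈ K2, χ x = 1 := by
      intro x hx
      rw [hK2d] at hx
      rw [hχd]
      simp only
      refine hfone _ ?_ ?_
      · rw [le_div_iff₀ hR0]
        linarith [hx.1]
      · rw [div_le_iff₀ hR0]
        exact hx.2
    obtain ⟨K3, hK3d⟩ : ∃ K3, K3 = An β (3 / 8 * R) (48 * R) := ⟨_, rfl⟩
    have hK3 : IsCompact K3 := by
      rw [hK3d]
      exact hAc _ _
    have hK3K : K3 ⊆ K := by
      rw [hKd, hK3d]
      rintro x ⟨h1, h2⟩
      exact ⟨by linarith, by linarith⟩
    have hχz : ∀ x, x ∉ K3 → χ x = 0 := by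
      intro x hx
      rw [hK3d] at hx
      have hx' : β x < 3 / 8 * R ∨ 48 * R < β x := by
        by_contra hcon
        rw [not_or, not_lt, not_lt] at hcon
        exact hx hcon
      rw [hχd]
      simp only
      rcases hx' with h | h
      · refine hfz _ ?_
        rw [div_le_iff₀ hR0]
        exact h.le
      · refine hfz' _ ?_
        rw [le_div_iff₀ hR0]
        exact h.le
    have hχcs : HasCompactSupport χ := HasCompactSupport.intro hK3 hχz
    have htK3 : tsupport χ ⊆ K3 := by
      refine closure_minimal ?_ hK3.isClosed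
      intro x hx
      by_contra hcon
      exact hx (hχz x hcon)
    have htK : tsupport χ ⊆ K := htK3.trans hK3K
    have hχf : ∀ x v, |fderiv ℝ χ x v| ≤ (2 * C₀ / R) * nr g x v := by
      intro x v
      have e1 : HasFDerivAt χ (deriv f (β x / R) • (R⁻¹ • fderiv ℝ β x)) x := by
        have e2 : HasDerivAt f (deriv f (β x / R)) (β x / R) :=
          ((hfs.differentiable (by simp)) _).hasDerivAt
        have e3 : HasFDerivAt (fun y => β y / R) (R⁻¹ • fderiv ℝ β x) x := by
          have e4 := (((hβs.differentiable (by simp)) x).hasFDerivAt).const_mul R⁻¹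
          refine e4.congr_of_eventuallyEq (Filter.Eventually.of_forall fun y => ?_)
          simp only
          rw [div_eq_inv_mul]
        rw [hχd]
        exact e2.comp_hasFDerivAt x e3
      rw [e1.fderiv]
      simp only [FunLike.coe_smul, Pi.smul_apply, smul_eq_mul]
      rw [abs_mul, abs_mul, abs_of_pos (inv_pos.mpr hR0)]
      have e5 := hfd (β x / R)
      have e6 := hLvl.grad x v
      have e7 : 0 ≤ nr g x v := Real.sqrt_nonneg _
      calc |deriv f (β x / R)| * (R⁻¹ * |fderiv ℝ β x v|)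
          ≤ C₀ * (R⁻¹ * (2 * nr g x v)) :=
            mul_le_mul e5 (mul_le_mul_of_nonneg_left e6 (inv_pos.mpr hR0).le)
              (by positivity) hC₀
        _ = _ := by
            rw [div_eq_mul_inv]
            ring
    -- the cut-off form
    obtain ⟨w, hwd⟩ : ∃ w : E n → Tn n (m + 1), w = fun y => χ y • v y := ⟨_, rfl⟩
    have hw : ContDiff ℝ ∞ w := by
      rw [hwd]
      exact hχs.smul hvs
    have hwa : Al w := by
      intro x I σ
      rw [hwd]
      simp only [Pi.smul_apply, smul_eq_mul]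
      rw [hva x I σ]
      ring
    have hsupp : ∀ x, x ∉ tsupport χ → x ∉ tsupport w := by
      intro x hx h
      apply hx
      rw [hwd] at h
      exact tsupport_smul_subset_left χ v h
    have hwcs : HasCompactSupport w := by
      rw [hwd]
      exact hχcs.smul_right
    obtain ⟨d1, -, -, -, -, -, -, d8⟩ := hDer n (m + 1) g Γ F G hF
    obtain ⟨-, d2, -, -, -, -, -, -⟩ := hDer n m g Γ F G hF
    obtain ⟨-, l2, -, -⟩ := hLbz n (m + 1) g Γ F G hF
    obtain ⟨zf, hzf⟩ : ∃ zf : E n → ℝ, zf = fun _ => 0 := ⟨_, rfl⟩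
    have hzs : ContDiff ℝ ∞ zf := by
      rw [hzf]
      exact contDiff_const
    have z1 : ∀ x, x ∉ tsupport χ → w x = 0 := fun x hx => (d8 w x (hsupp x hx)).1
    have z2 : ∀ x, x ∉ tsupport χ → ∀ a, cv F G w x a = 0 :=
      fun x hx => (d8 w x (hsupp x hx)).2.1
    have z3 : ∀ x, x ∉ tsupport χ → dF F G w x = 0 := fun x hx => (d8 w x (hsupp x hx)).2.2
    have z4 : ∀ x, x ∉ tsupport χ → dlF F G zf w x = 0 := by
      intro x hx
      unfold dlF
      rw [z1 x hx]
      refine Finset.sum_eq_zero fun a _ => ?_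
      rw [z2 x hx a]
      funext I
      simp [ct]
    have bo := hBol n m g Γ F G hg hc hF w hw hwa hwcs
    rw [← hzf] at bo
    have cN : Continuous (fun x => NF F G w x) := by
      unfold NF
      exact continuous_finsetSum _ fun a _ => lmj_q2_cont.comp ((d1 w hw).1 a).continuous
    have cW : Continuous (fun x => Wz (Rc g Γ F x) (w x)) := wz_cont hChr hg hc hF.smF hw.continuous
    have cD : Continuous (fun x => q2 (dF F G w x)) := lmj_q2_cont.comp (d1 w hw).2.continuous
    have cI : Continuous (fun x => q2 (w x)) := lmj_q2_cont.comp hw.continuous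
    have cdl : Continuous (fun x => q2 (dlF F G zf w x)) :=
      lmj_q2_cont.comp (d2 zf w hzs hw).continuous
    have hN0 : ∀ x, x ∉ tsupport χ → NF F G w x = 0 := by
      intro x hx
      unfold NF
      refine Finset.sum_eq_zero fun a _ => ?_
      rw [z2 x hx a, lmj_q2_zero]
    have hW0 : ∀ x, x ∉ tsupport χ → Wz (Rc g Γ F x) (w x) = 0 := by
      intro x hx
      rw [z1 x hx]
      unfold Wz
      refine Finset.sum_eq_zero fun a _ => Finset.sum_eq_zero fun b _ => ?_
      simp [ipt, ct]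
    have iN : Integrable (fun x => NF F G w x * vol g x) := by
      refine Continuous.integrable_of_hasCompactSupport (cN.mul hvc)
        (HasCompactSupport.intro (K := tsupport χ) hχcs (fun x hx => ?_))
      rw [hN0 x hx, zero_mul]
    have iW : Integrable (fun x => (NF F G w x + Wz (Rc g Γ F x) (w x)) * vol g x) := by
      refine Continuous.integrable_of_hasCompactSupport ((cN.add cW).mul hvc)
        (HasCompactSupport.intro (K := tsupport χ) hχcs (fun x hx => ?_))
      rw [hN0 x hx, hW0 x hx, add_zero, zero_mul]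
    have iD : Integrable (fun x => (q2 (dF F G w x) + q2 (dlF F G zf w x)) * vol g x) := by
      refine Continuous.integrable_of_hasCompactSupport ((cD.add cdl).mul hvc)
        (HasCompactSupport.intro (K := tsupport χ) hχcs (fun x hx => ?_))
      rw [z3 x hx, z4 x hx, lmj_q2_zero, lmj_q2_zero]
      ring
    have iI : Integrable (fun x => q2 (w x) * vol g x) := by
      refine Continuous.integrable_of_hasCompactSupport (cI.mul hvc)
        (HasCompactSupport.intro (K := tsupport χ) hχcs (fun x hx => ?_))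
      rw [z1 x hx, lmj_q2_zero, zero_mul]
    -- on K2
    have s1 : ∫ x in K2, NF F G v x * vol g x = ∫ x in K2, NF F G w x * vol g x := by
      refine setIntegral_congr_fun hK2.measurableSet (fun x hx => ?_)
      have hx1 := hχone x hx
      have hx2 : fderiv ℝ χ x = 0 := by
        refine IsLocalMax.fderiv_eq_zero (Filter.Eventually.of_forall fun y => ?_)
        rw [hx1]; exact hχ1 y
      have hx3 : ∀ a, cv F G w x a = cv F G v x a := by
        intro a
        rw [hwd, (l2 χ v hχs hvs x).1 a, hx1, hx2]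
        simp
      simp only [NF, hx3]
    have s2 : ∫ x in K2, NF F G w x * vol g x ≤ ∫ x, NF F G w x * vol g x := by
      refine setIntegral_le_integral iN (ae_of_all _ fun x => ?_)
      refine mul_nonneg ?_ (hvp x)
      unfold NF
      exact Finset.sum_nonneg fun a _ => n1 _
    -- the curvature term
    obtain ⟨ε, hε⟩ : ∃ ε : ℝ, ε = 64 * A / ((m + 1) * R ^ 2) := ⟨_, rfl⟩
    have hε0 : 0 ≤ ε := by
      rw [hε]
      positivity
    have hmε : (m + 1) * ε = 64 * A / R ^ 2 := by
      rw [hε]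
      field_simp
    have hWp : ∀ x, -((m + 1) * ε * q2 (w x)) ≤ Wz (Rc g Γ F x) (w x) := by
      intro x
      have h1 := hWD x (w x) (hwa x)
      by_cases hx : x ∈ K
      · refine le_trans (neg_le_neg ?_) h1
        refine mul_le_mul_of_nonneg_right ?_ (n1 _)
        rw [hmε]
        rw [hKd] at hx
        have h2 : R0' ≤ β x := by linarith [hx.1]
        have h3 := (hgr x h2).2
        have h4 : R / 8 ≤ dg g p x := by linarith [hx.1]
        have h5 : R ^ 2 / 64 ≤ dg g p x ^ 2 := by
          have h6 : (R / 8) ^ 2 ≤ dg g p x ^ 2 := pow_le_pow_left₀ (by positivity) h4 2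
          calc R ^ 2 / 64 = (R / 8) ^ 2 := by ring
            _ ≤ _ := h6
        rw [div_le_div_iff₀ (by positivity) (by positivity)]
        have h7 : A * R ^ 2 ≤ A * (64 * dg g p x ^ 2) :=
          mul_le_mul_of_nonneg_left (by linarith) hA
        nlinarith
      · have hx' : x ∉ tsupport χ := fun h => hx (htK h)
        rw [z1 x hx', lmj_q2_zero, mul_zero, neg_zero]
        rw [z1 x hx', lmj_q2_zero, mul_zero, neg_zero] at h1
        exact h1
    have s3 : ∫ x, NF F G w x * vol g x ≤
        (∫ x, (q2 (dF F G w x) + q2 (dlF F G zf w x)) * vol g x) +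
          (m + 1) * ε * (∫ x, q2 (w x) * vol g x) := by
      rw [← bo, ← integral_const_mul, ← integral_add iW (iI.const_mul _)]
      refine integral_mono iN (iW.add (iI.const_mul _)) fun x => ?_
      have h1 := mul_le_mul_of_nonneg_right (hWp x) (hvp x)
      simp only [Pi.add_apply]
      nlinarith
    have s4 : (∫ x, (q2 (dF F G w x) + q2 (dlF F G zf w x)) * vol g x) +
        (m + 1) * ε * (∫ x, q2 (w x) * vol g x) =
        ∫ x in K, (q2 (dF F G w x) + q2 (dlF F G zf w x) + (m + 1) * ε * q2 (w x)) *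
          vol g x := by
      rw [← integral_const_mul, ← integral_add iD (iI.const_mul _)]
      rw [← setIntegral_eq_integral_of_forall_compl_eq_zero (s := K) (fun x hx => ?_)]
      · refine integral_congr_ae (ae_of_all _ fun x => ?_)
        simp only
        ring
      · have hx' : x ∉ tsupport χ := fun h => hx (htK h)
        rw [z1 x hx', z3 x hx', z4 x hx']
        simp only [lmj_q2_zero]
        ring
    -- the integrals over K
    have cD' : Continuous (fun x => q2 (dF F G v x - P x)) :=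
      lmj_q2_cont.comp ((d1 v hvs).2.continuous.sub hP.smooth.continuous)
    have J2 : IntegrableOn (fun x => q2 (dF F G v x - P x) * vol g x) K :=
      (cD'.mul hvc).continuousOn.integrableOn_compact hK
    have cdl' : Continuous (fun x => q2 (dlF F G ψ v x)) :=
      lmj_q2_cont.comp (d2 ψ v hψs hvs).continuous
    have J5 : IntegrableOn (fun x => q2 (dlF F G ψ v x) * vol g x) K :=
      (cdl'.mul hvc).continuousOn.integrableOn_compact hK
    obtain ⟨D, hD⟩ : ∃ D : ℝ, D = c₁ / R ^ 2 := ⟨_, rfl⟩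
    have hD0 : 0 ≤ D := by
      rw [hD]
      positivity
    obtain ⟨iG, eG⟩ := lmj_int5 J1 J2 J3 J4 J5 4 4 (2 * D) (2 * D) 2
    have iLv : IntegrableOn (fun x => (q2 (dF F G w x) + q2 (dlF F G zf w x) +
        (m + 1) * ε * q2 (w x)) * vol g x) K :=
      (((cD.add cdl).add (continuous_const.mul cI)).mul hvc).continuousOn.integrableOn_compact hK
    have s5 := setIntegral_mono_on iLv iG hK.measurableSet (fun x hx => ?_)
    rotate_left
    · have h := lmj_ptw hNrm hLbz hF zf χ v hχs hvs x (hχ0 x) (hχ1 x) (2 * C₀ / R)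
        (lmj_grad (hF.onb x) (fderiv ℝ χ x) (2 * C₀ / R) (by positivity) (hχf x)) (P x) (η x)
        1 ε one_pos hε0
      have hψx : fderiv ℝ ψ x = 0 := by
        refine IsLocalMin.fderiv_eq_zero (Filter.Eventually.of_forall fun y => ?_)
        rw [hψZ x hx]; exact hψ0 y
      have hzx : fderiv ℝ zf x = 0 := by
        rw [hzf]
        simp
      have hdl : dlF F G zf v x = dlF F G ψ v x := by
        unfold dlF
        rw [hψx, hzx]
      have e2 : (m + 1) * ε + ((1 + 1 / 1) * (m + 2) + 2 * (m + 1)) * (2 * C₀ / R) ^ 2 = D := by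
        rw [hmε, hD, hc₁]
        field_simp
        ring
      rw [hdl, e2] at h
      have h1 := mul_le_mul_of_nonneg_right h (hvp x)
      have e0 : w x = χ x • v x := by rw [hwd]
      rw [e0, hwd]
      refine le_trans h1 (le_of_eq ?_)
      ring
    rw [eG] at s5
    have hJP : ∫ x in K, q2 (P x) * vol g x ≤ PP := by
      rw [hPP]
      exact setIntegral_le_integral hP.int (ae_of_all _ fun x => mul_nonneg (n2 _) (hvp x))
    have hDR : D ≤ c₁ := by
      rw [hD]
      refine div_le_self hc₁0 ?_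
      nlinarith
    have f1 := mul_le_mul_of_nonneg_left hηI (show (0 : ℝ) ≤ 2 * D by positivity)
    have f2 := mul_le_mul_of_nonneg_left p1 (show (0 : ℝ) ≤ 2 * D by positivity)
    have f3 := mul_le_mul_of_nonneg_right hDR hk0.le
    have f4 : (2 * c₁ + 4) / R ^ 2 * I0 = 2 * D * I0 + 4 / R ^ 2 * I0 := by
      rw [hD]
      ring
    have f5 : 0 ≤ 4 / R ^ 2 * I0 := by positivity
    have f6 : 0 ≤ c₁ * PP := mul_nonneg hc₁0 hPP0
    rw [f4, s1]
    refine s2.trans (s3.trans ?_)
    rw [s4]
    refine s5.trans ?_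
    nlinarith

end Pool.Agent.Helper67.QD
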