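import Pool.Agent.Helper58.QD.StS

/-!
# Project QD (MP_087a81_gt), module HFL: linear combinations of harmonic forms
-/

set_option autoImplicit false

open Set Filter Topology MeasureTheory
open Helper62.LH Helper62.DSH Helper58.QD
open scoped ContDiff ENNReal

noncomputable section

namespace Pool.Agent.Helper67.QD

private theorem q2c {n j : ℕ} : Continuous (q2 : Tn n j → ℝ) := by
  unfold q2 ipt
  refine Continuous.div_const ?_ _
  exact continuous_finsetSum _ fun I _ => (continuous_apply I).mul (continuous_apply I)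

private theorem vol_c {n : ℕ} {g : E n → Bl n} (hg : IsMet g) : Continuous (vol g) := by
  unfold vol
  refine Continuous.sqrt (Continuous.matrix_det ?_)
  refine continuous_matrix fun i j => ?_
  exact (hg.smooth.continuous.clm_apply continuous_const).clm_apply continuous_const

private theorem alt_comb {n j M : ℕ} {u : Fin M → E n → Tn n j} (hu : ∀ i, Al (u i))
    (c : Fin M → ℝ) : Al (fun y => ∑ i, c i • u i y) := by
  intro x I σ
  simp only [Finset.sum_apply, Pi.smul_apply, smul_eq_mul, Finset.mul_sum]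
  refine Finset.sum_congr rfl fun i _ => ?_
  rw [hu i x I σ]
  ring

/-- HFL. -/
theorem hHfl (hNrm : TNrm) (hDer : TDer) : SHfl := by
  intro n j g Γ F G hg hΓ hF M P hP c
  have hvc := vol_c hg
  have hv0 : ∀ x, 0 ≤ vol g x := fun x => Real.sqrt_nonneg _
  have hq0 : ∀ t : Tn n (j + 1), 0 ≤ q2 t := fun t => ((hNrm n (j + 1)).1 t).1
  have hsm : ContDiff ℝ ∞ (fun x => ∑ i, c i • P i x) :=
    ContDiff.sum fun i _ => ((hP i).smooth).const_smul (c i)
  have hsi : Integrable (fun x => ∑ i, q2 (P i x) * vol g x) :=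
    integrable_finsetSum _ fun i _ => (hP i).int
  have hi1 : Integrable (fun x => (∑ i, c i ^ 2) * ∑ i, q2 (P i x) * vol g x) := hsi.const_mul _
  have hle : ∀ x, q2 (∑ i, c i • P i x) * vol g x ≤
      (∑ i, c i ^ 2) * ∑ i, q2 (P i x) * vol g x := by
    intro x
    have h2 := (hNrm n (j + 1)).2.2.2.2.1 M c (fun i => P i x)
    rw [← Finset.sum_mul, ← mul_assoc]
    exact mul_le_mul_of_nonneg_right h2 (hv0 x)
  have hint : Integrable (fun x => q2 (∑ i, c i • P i x) * vol g x) := by
    refine hi1.mono' ((q2c.comp hsm.continuous).mul hvc).aestronglyMeasurable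
      (Filter.Eventually.of_forall fun x => ?_)
    rw [Real.norm_eq_abs, abs_of_nonneg (mul_nonneg (hq0 _) (hv0 x))]
    exact hle x
  refine ⟨⟨hsm, alt_comb (fun i => (hP i).alt) c, ?_, ?_, hint⟩, ?_⟩
  · choose u hu hua hud using fun i => (hP i).prim
    refine ⟨fun x => ∑ i, c i • u i x, ContDiff.sum fun i _ => (hu i).const_smul (c i),
      alt_comb hua c, fun x => ?_⟩
    rw [((hDer n j g Γ F G hF).2.2.2.2.2.1 M c u hu x).2]
    exact Finset.sum_congr rfl fun i _ => by rw [hud i x]
  · intro x
    have h := (hDer n j g Γ F G hF).2.2.2.2.2.2.1 (fun _ => 0) M c P (fun i => (hP i).smooth) x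
    rw [h]
    refine Finset.sum_eq_zero fun i _ => ?_
    rw [(hP i).cocl x, smul_zero]
  · refine (integral_mono hint hi1 hle).trans (le_of_eq ?_)
    rw [integral_const_mul, integral_finsetSum _ fun i _ => (hP i).int]

end Pool.Agent.Helper67.QD
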