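import Pool.Agent.Helper58.QD.StS

/-!
# Project QD (MP_087a81_gt), module MIN: minimal primitives
-/

set_option autoImplicit false

open Set Filter Topology MeasureTheory
open Helper62.LH Helper62.DSH Helper58.QD
open scoped ContDiff ENNReal

noncomputable section

namespace Pool.Agent.Helper67.QD

private theorem q2_nn {n j : ℕ} (t : Tn n j) : 0 ≤ q2 t :=
  div_nonneg (Finset.sum_nonneg fun _ _ => mul_self_nonneg _) (Nat.cast_nonneg _)

private theorem q2_c {n j : ℕ} : Continuous (q2 : Tn n j → ℝ) := by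
  unfold q2 ipt
  refine Continuous.div_const ?_ _
  exact continuous_finsetSum _ fun I _ => (continuous_apply I).mul (continuous_apply I)

private theorem sq_le_q2 {n j : ℕ} (t : Tn n j) (I : Fin j → Fin n) :
    t I ^ 2 ≤ (j.factorial : ℝ) * q2 t := by
  have h0 : (0 : ℝ) < (j.factorial : ℝ) := Nat.cast_pos.2 (Nat.factorial_pos j)
  have h1 : (j.factorial : ℝ) * q2 t = ∑ I, t I * t I := by
    unfold q2 ipt
    field_simp
  rw [h1, sq]
  exact Finset.single_le_sum (f := fun I => t I * t I) (fun _ _ => mul_self_nonneg _)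
    (Finset.mem_univ I)

private theorem loc_int {n : ℕ} {w v : E n → ℝ} (hw : Continuous w) (hw0 : ∀ x, 0 < w x)
    (hv : Continuous v) {G : E n → ℝ} (hG : Integrable (fun x => G x * w x)) {K : Set (E n)}
    (hK : IsCompact K) : IntegrableOn (fun x => G x * v x) K := by
  have h1 : IntegrableOn (fun x => G x * w x * ((w x)⁻¹ * v x)) K :=
    hG.integrableOn.mul_continuousOn
      ((hw.inv₀ fun x => (hw0 x).ne').mul hv).continuousOn hK
  refine h1.congr (Filter.Eventually.of_forall fun x => ?_)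
  simp only
  have := (hw0 x).ne'
  field_simp

private theorem L2t_w {n j : ℕ} {η : E n → Tn n j} (hm : AEStronglyMeasurable η volume)
    {w : E n → ℝ} (hw : Continuous w) (hw0 : ∀ x, 0 < w x)
    (hi : Integrable (fun x => q2 (η x) * w x)) : L2t η := by
  intro I
  have hmI : AEStronglyMeasurable (fun x => η x I) volume :=
    (continuous_apply I).comp_aestronglyMeasurable hm
  refine ⟨hmI, fun K hK => ?_⟩
  have h1 := (loc_int hw hw0 (v := fun _ => 1) continuous_const hi hK).const_mul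
    (j.factorial : ℝ)
  refine h1.mono' (hmI.pow 2).restrict (Filter.Eventually.of_forall fun x => ?_)
  rw [Real.norm_eq_abs, abs_of_nonneg (sq_nonneg _), mul_one]
  exact sq_le_q2 _ _

private def Asub (n j : ℕ) : Submodule ℝ (Tn n j) where
  carrier := {t | Altn t}
  add_mem' := by
    intro s t hs ht I σ
    simp only [Pi.add_apply]
    rw [hs I σ, ht I σ]
    ring
  zero_mem' := by
    intro I σ
    simp
  smul_mem' := by
    intro c t ht I σ
    simp only [Pi.smul_apply, smul_eq_mul]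
    rw [ht I σ]
    ring

private theorem mem_A {n j : ℕ} {t : Tn n j} : t ∈ Asub n j ↔ Altn t := Iff.rfl

section frame

variable {n j : ℕ} {g : E n → Bl n} {Γ : E n → Bm n} {F : Fin n → E n → E n}
  {G : E n → Fin n → Fin n → Fin n → ℝ}

private theorem dF_lin (hDer : TDer) (hF : Frm g Γ F G) {M : ℕ} (c : Fin M → ℝ)
    (u : Fin M → E n → Tn n j) (hu : ∀ i, ContDiff ℝ ∞ (u i)) (x : E n) :
    dF F G (fun y => ∑ i, c i • u i y) x = ∑ i, c i • dF F G (u i) x :=
  ((hDer n j g Γ F G hF).2.2.2.2.2.1 M c u hu x).2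

private theorem dF_add (hDer : TDer) (hF : Frm g Γ F G) {u v : E n → Tn n j}
    (hu : ContDiff ℝ ∞ u) (hv : ContDiff ℝ ∞ v) (x : E n) :
    dF F G (fun y => u y + v y) x = dF F G u x + dF F G v x := by
  have h := dF_lin hDer hF ![1, 1] ![u, v] (by
    intro i
    fin_cases i
    · exact hu
    · exact hv) x
  simpa [Fin.sum_univ_two] using h

private theorem dF_smul (hDer : TDer) (hF : Frm g Γ F G) {u : E n → Tn n j}
    (hu : ContDiff ℝ ∞ u) (c : ℝ) (x : E n) :
    dF F G (fun y => c • u y) x = c • dF F G u x := by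
  have h := dF_lin hDer hF ![c] ![u] (by
    intro i
    fin_cases i
    exact hu) x
  simpa using h

private theorem dF_zero (hDer : TDer) (hF : Frm g Γ F G) (x : E n) :
    dF F G (fun _ : E n => (0 : Tn n j)) x = 0 := by
  have h := dF_lin hDer hF (j := j) (M := 0) Fin.elim0 Fin.elim0 (fun i => i.elim0) x
  simpa using h

private theorem al_zero : Al (fun _ : E n => (0 : Tn n j)) := by
  intro x I σ
  simp

private theorem al_add {u v : E n → Tn n j} (hu : Al u) (hv : Al v) :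
    Al (fun y => u y + v y) := fun x => (Asub n j).add_mem (hu x) (hv x)

private theorem al_smul {u : E n → Tn n j} (hu : Al u) (c : ℝ) :
    Al (fun y => c • u y) := fun x => (Asub n j).smul_mem c (hu x)

private theorem al_sum {M : ℕ} {u : Fin M → E n → Tn n j} (hu : ∀ i, Al (u i))
    (c : Fin M → ℝ) : Al (fun y => ∑ i, c i • u i y) := fun x =>
  (Asub n j).sum_mem fun i _ => (Asub n j).smul_mem _ (hu i x)

/-- the space of exact forms with a primitive of compact support -/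
private def Ssub (hDer : TDer) (hF : Frm g Γ F G) : Submodule ℝ (E n → Tn n (j + 1)) where
  carrier := {ζ | ∃ β : E n → Tn n j, ContDiff ℝ ∞ β ∧ Al β ∧ HasCompactSupport β ∧
    ζ = dF F G β}
  add_mem' := by
    rintro _ _ ⟨β, hβ, hβa, hβc, rfl⟩ ⟨β', hβ', hβ'a, hβ'c, rfl⟩
    refine ⟨fun y => β y + β' y, hβ.add hβ', al_add hβa hβ'a, hβc.add hβ'c, ?_⟩
    funext x
    exact (dF_add hDer hF hβ hβ' x).symm
  zero_mem' := by
    refine ⟨fun _ => 0, contDiff_const, al_zero, HasCompactSupport.zero, ?_⟩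
    funext x
    exact (dF_zero hDer hF x).symm
  smul_mem' := by
    rintro c _ ⟨β, hβ, hβa, hβc, rfl⟩
    refine ⟨fun y => c • β y, hβ.const_smul c, al_smul hβa c, 
      hβc.comp_left (g := fun t => c • t) (smul_zero c), ?_⟩
    funext x
    exact (dF_smul hDer hF hβ c x).symm

private theorem mem_S (hDer : TDer) (hF : Frm g Γ F G) {ζ : E n → Tn n (j + 1)} :
    ζ ∈ Ssub hDer hF ↔ ∃ β : E n → Tn n j, ContDiff ℝ ∞ β ∧ Al β ∧ HasCompactSupport β ∧
      ζ = dF F G β := Iff.rfl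

private theorem dF_ct (hDer : TDer) (hF : Frm g Γ F G) {u : E n → Tn n j}
    (hu : ContDiff ℝ ∞ u) : ContDiff ℝ ∞ (dF F G u) := ((hDer n j g Γ F G hF).1 u hu).2

private theorem dF_al (hDer : TDer) (hF : Frm g Γ F G) {u : E n → Tn n j}
    (hu : ContDiff ℝ ∞ u) (ha : Al u) : Al (dF F G u) :=
  ((hDer n j g Γ F G hF).2.2.1 u hu ha).2

private theorem dF_cs (hDer : TDer) (hF : Frm g Γ F G) {u : E n → Tn n j}
    (hc : HasCompactSupport u) : HasCompactSupport (dF F G u) :=
  HasCompactSupport.intro hc fun x hx => ((hDer n j g Γ F G hF).2.2.2.2.2.2.2 u x hx).2.2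

end frame

private theorem proj (hDer : TDer) (hHpj : THpj) {n m : ℕ} {g : E n → Bl n} {Γ : E n → Bm n}
    {F : Fin n → E n → E n} {G : E n → Fin n → Fin n → Fin n → ℝ} (hF : Frm g Γ F G)
    {w : E n → ℝ} (hwc : Continuous w) (hw0 : ∀ x, 0 < w x) {u : E n → Tn n (m + 1)}
    (hu : ContDiff ℝ ∞ u) (hua : Al u) (hui : Integrable (fun x => q2 (u x) * w x)) :
    ∃ η : E n → Tn n (m + 1), Al η ∧ AEStronglyMeasurable η volume ∧
      Integrable (fun x => q2 (η x) * w x) ∧
      ∫ x, q2 (η x) * w x ≤ ∫ x, q2 (u x) * w x ∧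
      (∀ β : E n → Tn n m, ContDiff ℝ ∞ β → Al β → HasCompactSupport β →
        ∫ x, ipt (η x) (dF F G β x) * w x = 0) ∧
      ∀ κ > 0, ∃ β : E n → Tn n m, ContDiff ℝ ∞ β ∧ Al β ∧ HasCompactSupport β ∧
        Integrable (fun x => q2 (u x + dF F G β x - η x) * w x) ∧
        ∫ x, q2 (u x + dF F G β x - η x) * w x ≤ κ := by
  obtain ⟨η, h1, h2, h3, h4, h5, h6⟩ := hHpj n (m + 1) w hwc hw0 (Asub n (m + 1))
    (Ssub (n := n) (j := m) hDer hF) (by
      rintro β hβ
      obtain ⟨β', hβ', hβ'a, hβ'c, rfl⟩ := (mem_S hDer hF).1 hβ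
      exact ⟨(dF_ct hDer hF hβ').continuous, dF_cs hDer hF hβ'c,
        fun x => dF_al hDer hF hβ' hβ'a x⟩) u hu.continuous (fun x => hua x) hui
  refine ⟨η, h1, h2, h3, h4, ?_, ?_⟩
  · intro β hβ hβa hβc
    exact h5 _ ((mem_S hDer hF).2 ⟨β, hβ, hβa, hβc, rfl⟩)
  · intro κ hκ
    obtain ⟨ζ, hζ, h7, h8⟩ := h6 κ hκ
    obtain ⟨β, hβ, hβa, hβc, rfl⟩ := (mem_S hDer hF).1 hζ
    exact ⟨β, hβ, hβa, hβc, h7, h8⟩

/-- MIN. -/
theorem hMin (hGrw : SGrw) (hDlv : StDlv) (_hNrm : TNrm) (hDer : TDer) (hHpj : THpj) (hFrj : TFrj)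
    (hDdz : TDdz) (hWte : SWte) : SMin := by
  intro n m g Γ F G hg hΓ hF p b β κ₀ r0 hBus hLvl P hP u0 hu0 s t κ hκ
  obtain ⟨hu0s, hu0a, hu0d⟩ := hu0
  obtain ⟨hβc, hAc, -⟩ := hGrw n g Γ hg p b β κ₀ r0 hBus hLvl
  obtain ⟨hvolc', hvol0, -⟩ := hDlv n g Γ hg hΓ
  have hvolc : Continuous (vol g) := hvolc'.continuous
  obtain ⟨ψ, hψs, hψ0, hψZ, hψi, hψT⟩ := hWte n g Γ hg hΓ β hLvl.smooth hβc
    (fun x => q2 (u0 x)) (q2_c.comp hu0s.continuous) (fun x => q2_nn _) s t κ hκ
  have hwc : Continuous (wt g ψ) := (Real.continuous_exp.comp hψs.continuous.neg).mul hvolc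
  have hw0 : ∀ x, 0 < wt g ψ x := fun x => mul_pos (Real.exp_pos _) (hvol0 x)
  have hwZ : ∀ x ∈ An β s t, wt g ψ x = vol g x := by
    intro x hx
    unfold wt
    rw [hψZ x hx]
    simp
  obtain ⟨η, h1, h2, h3, h4, h5, h6⟩ := proj hDer hHpj hF hwc hw0 hu0s hu0a hψi
  have hL : L2t η := L2t_w h2 hwc hw0 h3
  have happ : ∀ K, IsCompact K → ∀ κ' > 0, ∃ u, Prm F G P u ∧
      ∫ x in K, q2 (u x - η x) * vol g x ≤ κ' := by
    intro K hK κ' hκ'
    obtain ⟨B, hB0, hB⟩ : ∃ B : ℝ, 0 < B ∧ ∀ x ∈ K, vol g x ≤ B * wt g ψ x := by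
      obtain ⟨B, hB⟩ := hK.bddAbove_image
        ((hvolc.div hwc fun x => (hw0 x).ne').continuousOn (s := K))
      refine ⟨max B 1, lt_of_lt_of_le one_pos (le_max_right _ _), fun x hx => ?_⟩
      rw [← div_le_iff₀ (hw0 x)]
      exact (hB ⟨x, hx, rfl⟩).trans (le_max_left _ _)
    obtain ⟨γ, hγ, hγa, hγc, hγi, hγle⟩ := h6 (κ' / B) (by positivity)
    refine ⟨fun x => u0 x + dF F G γ x, ⟨hu0s.add (dF_ct hDer hF hγ),
      al_add hu0a (dF_al hDer hF hγ hγa), ?_⟩, ?_⟩
    · intro x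
      rw [dF_add hDer hF hu0s (dF_ct hDer hF hγ), hu0d x, hDdz n m g Γ F G hg hΓ hF γ hγ hγa x,
        add_zero]
    · have e1 : IntegrableOn (fun x => q2 (u0 x + dF F G γ x - η x) * vol g x) K :=
        loc_int hwc hw0 hvolc hγi hK
      calc ∫ x in K, q2 (u0 x + dF F G γ x - η x) * vol g x
          ≤ ∫ x in K, B * (q2 (u0 x + dF F G γ x - η x) * wt g ψ x) := by
            refine setIntegral_mono_on e1 (hγi.integrableOn.const_mul B)
              hK.measurableSet fun x hx => ?_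
            calc q2 (u0 x + dF F G γ x - η x) * vol g x
                ≤ q2 (u0 x + dF F G γ x - η x) * (B * wt g ψ x) :=
                  mul_le_mul_of_nonneg_left (hB x hx) (q2_nn _)
              _ = _ := by ring
        _ = B * ∫ x in K, q2 (u0 x + dF F G γ x - η x) * wt g ψ x := integral_const_mul _ _
        _ ≤ B * ∫ x, q2 (u0 x + dF F G γ x - η x) * wt g ψ x := by
            refine mul_le_mul_of_nonneg_left ?_ hB0.le
            exact setIntegral_le_integral hγi
              (Filter.Eventually.of_forall fun x => mul_nonneg (q2_nn _) (hw0 x).le)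
        _ ≤ B * (κ' / B) := mul_le_mul_of_nonneg_left hγle hB0.le
        _ = κ' := by field_simp
  refine ⟨ψ, η, hψs, hψ0, hψZ, h1, hL, ?_, happ, ?_⟩
  · refine hFrj n m g Γ F G hg hΓ hF ψ hψs P η hP.smooth.continuous h1 hL
      (fun K hK κ' hκ' => ?_) h5
    obtain ⟨u, hu, hui⟩ := happ K hK κ' hκ'
    exact ⟨u, hu.1, hu.2.2, hui⟩
  · have hAm : MeasurableSet (An β s t) := (hAc s t).measurableSet
    have e1 : ∫ x in An β s t, q2 (η x) * vol g x = ∫ x in An β s t, q2 (η x) * wt g ψ x := by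
      refine setIntegral_congr_fun hAm fun x hx => ?_
      rw [hwZ x hx]
    rw [e1]
    refine (setIntegral_le_integral h3
      (Filter.Eventually.of_forall fun x => mul_nonneg (q2_nn _) (hw0 x).le)).trans ?_
    exact h4.trans hψT

end Pool.Agent.Helper67.QD
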